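import Mathlib

set_option autoImplicit false

/-!
# An Ulrich partition of type (1, 4, 12)

A partition of type `(α, β, γ)` is a strictly decreasing sequence of integers split into three
consecutive blocks `a`, `b`, `c` of lengths `α`, `β`, `γ ≥ 1`. It is Ulrich if for every
`t ∈ {1, ..., αβ + αγ + βγ}` the sequence `P(t)`, obtained by subtracting `2t` from the entries of
the first block and `t` from the entries of the second block, has two equal entries.

It was conjectured that there is no Ulrich partition with `β ≥ 3` and `γ ≥ 3`. The partition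
`(0 | -28, -29, -36, -37 | -38, -40, -42, -44, -54, -60, -70, -76, -86, -88, -90, -92)` of type
`(1, 4, 12)` is Ulrich.
-/

namespace Pool.Agent.Results.MP_ff76d6_ag.TypeOneFourTwelve

/-- The three blocks `a`, `b`, `c` (in this order) form a strictly decreasing sequence. -/
def IsPartition {α β γ : ℕ} (a : Fin α → ℤ) (b : Fin β → ℤ) (c : Fin γ → ℤ) : Prop :=
  StrictAnti a ∧ StrictAnti b ∧ StrictAnti c ∧ (∀ i j, b j < a i) ∧ (∀ j k, c k < b j) ∧
    ∀ i k, c k < a i

/-- The sequence `P(t)`: subtract `2t` in the first block, `t` in the second, `0` in the third. -/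
def shift {α β γ : ℕ} (a : Fin α → ℤ) (b : Fin β → ℤ) (c : Fin γ → ℤ) (t : ℕ) :
    Fin α ⊕ (Fin β ⊕ Fin γ) → ℤ :=
  Sum.elim (fun i => a i - 2 * (t : ℤ)) (Sum.elim (fun j => b j - (t : ℤ)) c)

/-- `(a | b | c)` is an Ulrich partition of type `(α, β, γ)`: it is a partition, and for every
`t ∈ {1, ..., αβ + αγ + βγ}` the sequence `P(t)` has two equal entries. -/
def IsUlrich {α β γ : ℕ} (a : Fin α → ℤ) (b : Fin β → ℤ) (c : Fin γ → ℤ) : Prop :=
  IsPartition a b c ∧
    ∀ t : ℕ, 1 ≤ t → t ≤ α * β + α * γ + β * γ →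
      ∃ p q : Fin α ⊕ (Fin β ⊕ Fin γ), p ≠ q ∧ shift a b c t p = shift a b c t q

/-- First block. -/
def A : Fin 1 → ℤ := ![0]

/-- Second block. -/
def B : Fin 4 → ℤ := ![-28, -29, -36, -37]

/-- Third block. -/
def C : Fin 12 → ℤ := ![-38, -40, -42, -44, -54, -60, -70, -76, -86, -88, -90, -92]

theorem partition_ABC : IsPartition A B C := by
  refine ⟨?_, ?_, ?_, ?_, ?_, ?_⟩
  · intro i j h
    exact absurd (Subsingleton.elim i j) h.ne
  · have h : ∀ i j : Fin 4, i < j → B j < B i := by decide +kernel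
    exact fun i j hij => h i j hij
  · have h : ∀ i j : Fin 12, i < j → C j < C i := by decide +kernel
    exact fun i j hij => h i j hij
  · decide +kernel
  · decide +kernel
  · decide +kernel

theorem ulrich_ABC : IsUlrich A B C := by
  refine ⟨partition_ABC, ?_⟩
  have h : ∀ t ∈ Finset.Icc 1 64, ∃ p q : Fin 1 ⊕ (Fin 4 ⊕ Fin 12),
      p ≠ q ∧ shift A B C t p = shift A B C t q := by decide +kernel
  intro t h1 h2
  exact h t (Finset.mem_Icc.mpr ⟨h1, h2⟩)

/-- There is an Ulrich partition of type `(1, 4, 12)`; in particular there are `α ≥ 1`, `β ≥ 3`,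
`γ ≥ 3` and an Ulrich partition of type `(α, β, γ)`, already with `α = 1`. -/
theorem result :
    IsUlrich ![0] ![-28, -29, -36, -37]
      ![-38, -40, -42, -44, -54, -60, -70, -76, -86, -88, -90, -92] ∧
    ∃ α β γ : ℕ, α = 1 ∧ 3 ≤ β ∧ 3 ≤ γ ∧
      ∃ (a : Fin α → ℤ) (b : Fin β → ℤ) (c : Fin γ → ℤ), IsUlrich a b c :=
  ⟨ulrich_ABC, 1, 4, 12, rfl, by norm_num, by norm_num, A, B, C, ulrich_ABC⟩

end Pool.Agent.Results.MP_ff76d6_ag.TypeOneFourTwelve
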